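import Pool.Agent.Q82.SchTC

open Set UniformSpace Pool.Agent.Q82.Sch

namespace Pool.Agent.Results.MP_3cdc4e_an.NotContained

/-- For every `n ≥ 1`, on the Schreier space `X[S_n]` (real or complex) there is a strictly
singular operator that does not lie in the closure of the operators that factor through `c₀`. -/
theorem result (𝕜 : Type) [RCLike 𝕜] (n : ℕ) (hn : 1 ≤ n) :
    ∃ T : Op 𝕜 n, StrictlySingular T ∧ T ∉ closure (factorC0 : Set (Op 𝕜 n)) := by
  obtain ⟨D⟩ := exists_dat hn
  exact ⟨D.op 𝕜 hn, D.op_strictlySingular hn, D.op_not_mem_closure hn⟩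

end Pool.Agent.Results.MP_3cdc4e_an.NotContained
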